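import Pool.Agent.LRG.StmtsR

/-!
# LRG, row MON: monomials of the coordinates over the base
-/

set_option autoImplicit false

noncomputable section

open Finset

namespace Pool.Agent.LRG.H70

open Pool.Agent.LRG.R

/-- The value map is a ring homomorphism. -/
theorem ev1_hom {κ O : Type} [CommRing O] (q : MvPolynomial κ ℤ) (w : κ → O) :
    ev1 q w = MvPolynomial.eval₂Hom (Int.castRingHom O) w q := rfl

theorem ev1_mul {κ O : Type} [CommRing O] (p q : MvPolynomial κ ℤ) (w : κ → O) :
    ev1 (p * q) w = ev1 p w * ev1 q w := by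
  rw [ev1_hom, ev1_hom, ev1_hom, map_mul]

theorem ev1_pow {κ O : Type} [CommRing O] (p : MvPolynomial κ ℤ) (k : ℕ) (w : κ → O) :
    ev1 (p ^ k) w = ev1 p w ^ k := by
  rw [ev1_hom, ev1_hom, map_pow]

theorem ev1_prod {κ O ι : Type} [CommRing O] (s : Finset ι) (p : ι → MvPolynomial κ ℤ)
    (w : κ → O) : ev1 (∏ i ∈ s, p i) w = ∏ i ∈ s, ev1 (p i) w := by
  rw [ev1_hom, map_prod]
  rfl

theorem mon : MonStatement := by
  intro hP N m E e g hg α hα
  choose a ha1 ha2 using fun l : Fin N => hP m E (g l) (hg l).1 (hg l).2 (α l)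
  refine ⟨fun γ => ∏ l, ((g l).leadingCoeff ^ (e - α l) * a l (γ l : ℕ)), ?_, ?_⟩
  · intro γ
    refine (MvPolynomial.totalDegree_finsetProd _ _).trans ?_
    have h1 : ∀ l ∈ (univ : Finset (Fin N)),
        ((g l).leadingCoeff ^ (e - α l) * a l (γ l : ℕ)).totalDegree ≤ e * E := by
      intro l _
      refine (MvPolynomial.totalDegree_mul _ _).trans ?_
      have h2 := MvPolynomial.totalDegree_pow (g l).leadingCoeff (e - α l)
      have h3 : (g l).leadingCoeff.totalDegree ≤ E := (hg l).1.2 _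
      have h4 := ha1 l (γ l : ℕ)
      have h5 : (e - α l) * E + α l * E = e * E := by
        rw [← add_mul, Nat.sub_add_cancel (hα l)]
      calc _ ≤ (e - α l) * E + α l * E :=
            Nat.add_le_add (h2.trans (Nat.mul_le_mul_left _ h3)) h4
        _ = e * E := h5
    refine (Finset.sum_le_sum h1).trans ?_
    rw [Finset.sum_const, Finset.card_univ, Fintype.card_fin, smul_eq_mul, mul_assoc]
  · intro O _ w x hx
    have h1 : (∏ l, ev1 (g l).leadingCoeff w) ^ e * ∏ l, x l ^ α l =
        ∏ l, ∑ j : Fin E, ev1 ((g l).leadingCoeff ^ (e - α l) * a l (j : ℕ)) w * x l ^ (j : ℕ) := by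
      rw [← Finset.prod_pow, ← Finset.prod_mul_distrib]
      refine Finset.prod_congr rfl fun l _ => ?_
      have h2 := ha2 l O w (x l) (hx l)
      have h3 : ev1 (g l).leadingCoeff w ^ e =
          ev1 (g l).leadingCoeff w ^ (e - α l) * ev1 (g l).leadingCoeff w ^ α l := by
        rw [← pow_add, Nat.sub_add_cancel (hα l)]
      rw [h3, mul_assoc, h2, Finset.sum_range, Finset.mul_sum]
      refine Finset.sum_congr rfl fun j _ => ?_
      rw [ev1_mul, ev1_pow, mul_assoc]
    have h2 := Finset.prod_univ_sum (fun _ : Fin N => (Finset.univ : Finset (Fin E)))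
      (fun l (j : Fin E) =>
        ev1 ((g l).leadingCoeff ^ (e - α l) * a l (j : ℕ)) w * x l ^ (j : ℕ))
    rw [Fintype.piFinset_univ] at h2
    rw [h1, h2]
    refine Finset.sum_congr rfl fun γ _ => ?_
    rw [Finset.prod_mul_distrib, ev1_prod]

end Pool.Agent.LRG.H70
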