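import Pool.Agent.LRG.StmtsK

/-!
# LRG, row TPD: the top form of a determinant of quadratic polynomials
-/

set_option autoImplicit false

open Polynomial

namespace Pool.Agent.LRG.H70

open Pool.Agent.LRG.K

/-- The top coefficient of a determinant of polynomials of degree at most two. -/
theorem coeff_det_two {A : Type} [CommRing A] {r : ℕ} (M : Matrix (Fin r) (Fin r) A[X])
    (h : ∀ i j, (M i j).natDegree ≤ 2) :
    M.det.coeff (r * 2) = (Matrix.of fun i j => (M i j).coeff 2).det := by
  rw [Matrix.det_apply, Matrix.det_apply, Polynomial.finsetSum_coeff]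
  refine Finset.sum_congr rfl fun σ _ => ?_
  have h1 := Polynomial.coeff_prod_of_natDegree_le (s := (Finset.univ : Finset (Fin r)))
    (fun i => M (σ i) i) 2 fun i _ => h (σ i) i
  rw [Finset.card_univ, Fintype.card_fin] at h1
  rw [Polynomial.coeff_smul, h1]
  rfl

theorem quad_eq {A : Type} [CommRing A] (c a b a' b' : A) :
    C c * (C a + C b * X) * (C a' + C b' * X) =
      C (c * b * b') * X ^ 2 + C (c * (a * b' + b * a')) * X + C (c * a * a') := by
  simp only [C_mul, C_add]
  ring

theorem quad_coeff {A : Type} [CommRing A] (c a b a' b' : A) :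
    (C c * (C a + C b * X) * (C a' + C b' * X)).coeff 2 = c * b * b' := by
  rw [quad_eq, coeff_add, coeff_add, coeff_C_mul_X_pow, coeff_C_mul_X, coeff_C]
  simp

theorem quad_deg {A : Type} [CommRing A] (c a b a' b' : A) :
    (C c * (C a + C b * X) * (C a' + C b' * X)).natDegree ≤ 2 := by
  rw [quad_eq]
  exact natDegree_quadratic_le

theorem tpd : TpdStmt := by
  intro Ω A _ _ _ n r q z hz c κ N hdet Z
  -- the polynomial identity
  have hP : (Matrix.of fun i i' : Fin r => ∑ j : Fin n, ∑ j' : Fin n,
      MvPolynomial.C (c i i' j j') *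
        (MvPolynomial.C (κ i j) + ∑ l, (N (i, j) l : MvPolynomial (Fin q) A) * MvPolynomial.X l) *
        (MvPolynomial.C (κ i' j') +
          ∑ l, (N (i', j') l : MvPolynomial (Fin q) A) * MvPolynomial.X l) :
      Matrix (Fin r) (Fin r) (MvPolynomial (Fin q) A)).det = 0 := by
    have h1 := (injective_iff_map_eq_zero _).1 hz
    apply h1
    rw [AlgHom.map_det, ← hdet]
    congr 1
    ext i i'
    simp [AlgHom.mapMatrix_apply, Matrix.map_apply]
  have h1 := congrArg (MvPolynomial.aeval (R := A) fun l : Fin q => ((Z l : A[X]) * X)) hP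
  rw [AlgHom.map_det, map_zero] at h1
  have h2 : (MvPolynomial.aeval (R := A) fun l : Fin q => ((Z l : A[X]) * X)).mapMatrix
      (Matrix.of fun i i' : Fin r => ∑ j : Fin n, ∑ j' : Fin n,
      MvPolynomial.C (c i i' j j') *
        (MvPolynomial.C (κ i j) + ∑ l, (N (i, j) l : MvPolynomial (Fin q) A) * MvPolynomial.X l) *
        (MvPolynomial.C (κ i' j') +
          ∑ l, (N (i', j') l : MvPolynomial (Fin q) A) * MvPolynomial.X l)) =
      Matrix.of fun i i' : Fin r => ∑ j : Fin n, ∑ j' : Fin n,
        C (c i i' j j') * (C (κ i j) + C ((∑ l, N (i, j) l * Z l : ℤ) : A) * X) *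
          (C (κ i' j') + C ((∑ l, N (i', j') l * Z l : ℤ) : A) * X) := by
    have e : ∀ k, ∑ l, (N k l : A[X]) * ((Z l : A[X]) * X) =
        C ((∑ l, N k l * Z l : ℤ) : A) * X := by
      intro k
      rw [Int.cast_sum, map_sum, Finset.sum_mul]
      refine Finset.sum_congr rfl fun l _ => ?_
      rw [Int.cast_mul, map_mul, map_intCast, map_intCast]
      ring
    ext1 i i'
    simp only [AlgHom.mapMatrix_apply, Matrix.map_apply, Matrix.of_apply, map_add, map_sum,
      map_mul, map_intCast, MvPolynomial.aeval_X, MvPolynomial.aeval_C,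
      Polynomial.algebraMap_eq, e]
  rw [h2] at h1
  have h3 := coeff_det_two (Matrix.of fun i i' : Fin r => ∑ j : Fin n, ∑ j' : Fin n,
        C (c i i' j j') * (C (κ i j) + C ((∑ l, N (i, j) l * Z l : ℤ) : A) * X) *
          (C (κ i' j') + C ((∑ l, N (i', j') l * Z l : ℤ) : A) * X)) (fun i i' => by
      rw [Matrix.of_apply]
      exact Polynomial.natDegree_sum_le_of_forall_le _ _ fun j _ =>
        Polynomial.natDegree_sum_le_of_forall_le _ _ fun j' _ => quad_deg _ _ _ _ _)
  rw [h1, coeff_zero] at h3
  have h4 := congrArg (algebraMap A Ω) h3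
  rw [map_zero, RingHom.map_det] at h4
  rw [h4]
  congr 1
  ext i i'
  simp only [RingHom.mapMatrix_apply, Matrix.map_apply, Matrix.of_apply,
    Polynomial.finsetSum_coeff, quad_coeff]
  simp only [map_sum, map_mul, map_intCast]

end Pool.Agent.LRG.H70
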